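import Pool.Agent.Helper76.S7.StC

/-!
# Module Edg of project W7 (level 7^n): values on translated paths as plane functions
-/

set_option autoImplicit false

namespace Pool.Agent.Helper33.S7

open Pool.Agent.Helper14.CV (Homog EqC act Tl)
open Pool.Agent.Helper28.WK (SymP Tw evw Ok)
open Pool.Agent.Helper76.S7 Pool.Agent.Helper14.W5

private lemma vec_ne {e X Y u1 u2 : ℤ} (hu : u1 ≠ 0 ∨ u2 ≠ 0) :
    u1 + e * X * u2 ≠ 0 ∨ 7 * Y * u1 + (1 + e * 7 * X * Y) * u2 ≠ 0 := by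
  by_contra h
  push Not at h
  obtain ⟨h1, h2⟩ := h
  have e2 : u2 = 0 := by linear_combination h2 - 7 * Y * h1
  have e1 : u1 = 0 := by rw [e2] at h1; linear_combination h1
  rcases hu with hu | hu
  · exact hu e1
  · exact hu e2

theorem hEdg (hPlA : S7PlA) (hPlU : S7PlU) : S7Edg := by
  intro R _ μ r s G hG u1 u2 v1 v2 hu hv x y a b c d hP
  obtain ⟨α, β, γ, δ, hdet, hβ, hγ, h1, h2, h3, h4⟩ :=
    hPlU μ r s x y 1 (x.val : ℤ) (rY7 μ x y) (1 + 7 ^ (μ + 1) * (x.val : ℤ) * rY7 μ x y) a b c d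
      (hPlA μ r s x y) hP
  obtain ⟨k, hk⟩ := hG.2 α β γ δ hdet (by exact_mod_cast hβ) (by exact_mod_cast hγ)
  have key : ∀ w1 w2 : ℤ, (w1 ≠ 0 ∨ w2 ≠ 0) → G (a * w1 + 7 ^ μ * b * w2) (7 * c * w1 + d * w2)
      = G (w1 + 7 ^ μ * (x.val : ℤ) * w2)
        (7 * rY7 μ x y * w1 + (1 + 7 ^ (μ + 1) * (x.val : ℤ) * rY7 μ x y) * w2) + k := by
    intro w1 w2 hw
    have hne := vec_ne (e := 7 ^ μ) (X := (x.val : ℤ)) (Y := rY7 μ x y) hw
    have hD : (1 + 7 ^ μ * 7 * (x.val : ℤ) * rY7 μ x y) = 1 + 7 ^ (μ + 1) * (x.val : ℤ) * rY7 μ x y := by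
      rw [pow_succ]
    rw [hD] at hne
    have := hk _ _ hne
    rw [act] at this
    rw [← this]
    congr 1
    · linear_combination w1 * h1 + w2 * h2
    · linear_combination w1 * h3 + w2 * h4
  rw [edge7, key u1 u2 hu, key v1 v2 hv]
  abel

end Pool.Agent.Helper33.S7
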