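import Pool.Agent.Helper4.S7.StD3

/-!
# Project W7, module Stp: the operators on symbols and their rows
-/

set_option autoImplicit false

namespace Pool.Agent.Helper33.S7

open Pool.Agent.Helper4.S7 Pool.Agent.Helper84.S7 Pool.Agent.Helper52.S7 Pool.Agent.Helper76.S7
open Pool.Agent.Helper14.CV (Homog EqC act Tl)
open Pool.Agent.Helper28.WK (SymP)
open Pool.Agent.Helper14.W5 (SymP.add SymP.neg SymP.smul)

/-- All entries of a matrix of lists are good. -/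
private def GG (A : Fin 2 → Fin 2 → List Tm) : Prop := ∀ i f, ∀ t ∈ A i f, Gd t

/-- The operator `Φ` preserves symbols and has the rows `A`. -/
private def Rw (r s : ℕ) (Φ : (ℤ → ℤ → ZMod 7) → (ℤ → ℤ → ZMod 7)) (A : Fin 2 → Fin 2 → List Tm) : Prop :=
  GG A ∧ ∀ G, SymP 7 r (s + 1) G → SymP 7 r (s + 1) (Φ G) ∧
    ∀ i, (pf7 (Φ G) i : Fn7 (7 ^ r) (7 ^ s)) = ∑ f : Fin 2, opL (A i f) (pf7 G f)

private lemma gg2 : GG T2L := by unfold GG; decide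

private lemma gg3 : GG T3L := by unfold GG; decide

private lemma gg5 : GG T5L := by unfold GG; decide

private lemma gg_id (c : ℤ) : GG (idL c) := by
  intro i f t ht
  unfold idL at ht
  split_ifs at ht
  · rw [List.mem_singleton] at ht
    subst ht
    exact ⟨by norm_num, by norm_num⟩
  · simp at ht

private lemma gg_ad {A B : Fin 2 → Fin 2 → List Tm} (hA : GG A) (hB : GG B) : GG (adL A B) := by
  intro i f t ht
  unfold adL at ht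
  rcases List.mem_append.1 ht with h | h
  · exact hA i f t h
  · exact hB i f t h

private lemma gg_sm (n : ℤ) {A : Fin 2 → Fin 2 → List Tm} (hA : GG A) : GG (smL n A) := by
  intro i f t ht
  unfold smL sclL at ht
  obtain ⟨u, hu, rfl⟩ := List.mem_map.1 ht
  exact hA i f u hu

private lemma gg_mm (hp : S7Opm) {A B : Fin 2 → Fin 2 → List Tm} (hA : GG A) (hB : GG B) : GG (mmL A B) := by
  intro i f t ht
  unfold mmL at ht
  rcases List.mem_append.1 ht with h | h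
  · exact ((hp 0 0).1 _ _ (hA i 0) (hB 0 f)).1 t h
  · exact ((hp 0 0).1 _ _ (hA i 1) (hB 1 f)).1 t h

section

variable {r s : ℕ}

private lemma pf_add (G H : ℤ → ℤ → ZMod 7) (i : Fin 2) :
    (pf7 (G + H) i : Fn7 (7 ^ r) (7 ^ s)) = pf7 G i + pf7 H i := by
  funext x y
  simp only [pf7, edge7, Pi.add_apply]
  ring

private lemma pf_smul (n : ℤ) (G : ℤ → ℤ → ZMod 7) (i : Fin 2) :
    (pf7 (n • G) i : Fn7 (7 ^ r) (7 ^ s)) = ((n : ℤ) : ZMod 7) • pf7 G i := by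
  funext x y
  simp only [pf7, edge7, Pi.smul_apply, smul_eq_mul, zsmul_eq_mul]
  ring

private lemma rw_ad (hp : S7Opm) {Φ Ψ : (ℤ → ℤ → ZMod 7) → (ℤ → ℤ → ZMod 7)}
    {A B : Fin 2 → Fin 2 → List Tm} (hA : Rw r s Φ A) (hB : Rw r s Ψ B) :
    Rw r s (fun G => Φ G + Ψ G) (adL A B) := by
  refine ⟨gg_ad hA.1 hB.1, fun G hG => ?_⟩
  obtain ⟨a1, a2⟩ := hA.2 G hG
  obtain ⟨b1, b2⟩ := hB.2 G hG
  refine ⟨SymP.add a1 b1, fun i => ?_⟩
  rw [pf_add, a2, b2]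
  simp only [adL, (hp r s).2.2.1, LinearMap.add_apply, Finset.sum_add_distrib]

private lemma rw_sm (hp : S7Opm) (n : ℤ) {Φ : (ℤ → ℤ → ZMod 7) → (ℤ → ℤ → ZMod 7)}
    {A : Fin 2 → Fin 2 → List Tm} (hA : Rw r s Φ A) :
    Rw r s (fun G => n • Φ G) (smL n A) := by
  refine ⟨gg_sm n hA.1, fun G hG => ?_⟩
  obtain ⟨a1, a2⟩ := hA.2 G hG
  refine ⟨SymP.smul n a1, fun i => ?_⟩
  rw [pf_smul, a2]
  simp only [smL, (hp r s).2.1, LinearMap.smul_apply, Finset.smul_sum]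

private lemma rw_mm (hp : S7Opm) {Φ Ψ : (ℤ → ℤ → ZMod 7) → (ℤ → ℤ → ZMod 7)}
    {A B : Fin 2 → Fin 2 → List Tm} (hA : Rw r s Φ A) (hB : Rw r s Ψ B) :
    Rw r s (fun G => Φ (Ψ G)) (mmL A B) := by
  refine ⟨gg_mm hp hA.1 hB.1, fun G hG => ?_⟩
  obtain ⟨b1, b2⟩ := hB.2 G hG
  obtain ⟨a1, a2⟩ := hA.2 _ b1
  refine ⟨a1, fun i => ?_⟩
  have hmul : ∀ g f : Fin 2, (opL (mulL (A i g) (B g f)) : Module.End (ZMod 7) (Fn7 (7 ^ r) (7 ^ s))) =
      opL (A i g) * opL (B g f) := fun g f => ((hp r s).1 _ _ (hA.1 i g) (hB.1 g f)).2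
  rw [a2, Fin.sum_univ_two, b2, b2]
  simp only [Fin.sum_univ_two, mmL, (hp r s).2.2.1, hmul, LinearMap.add_apply, Module.End.mul_apply,
    map_add]
  abel

private lemma op_one (F : Fn7 (7 ^ r) (7 ^ s)) : op7 1 0 0 1 F = F := by
  funext x y
  show F _ _ = F x y
  simp

private lemma rw_id (c : ℤ) : Rw r s (fun G => c • G) (idL c) := by
  refine ⟨gg_id c, fun G hG => ⟨SymP.smul c hG, fun i => ?_⟩⟩
  rw [pf_smul]
  have h1 : ∀ f, (opL (idL c f f) : Module.End (ZMod 7) (Fn7 (7 ^ r) (7 ^ s))) (pf7 G f) =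
      ((c : ℤ) : ZMod 7) • pf7 G f := by
    intro f
    rw [show idL c f f = [(c, 1, 0, 0, 1)] from if_pos rfl]
    simp only [opL, List.map_cons, List.map_nil, List.sum_cons, List.sum_nil, add_zero,
      LinearMap.smul_apply, op_one]
  have h2 : ∀ f g, f ≠ g → (opL (idL c f g) : Module.End (ZMod 7) (Fn7 (7 ^ r) (7 ^ s))) (pf7 G g) = 0 := by
    intro f g hfg
    rw [show idL c f g = [] from if_neg hfg]
    rfl
  fin_cases i
  · show _ = ∑ f : Fin 2, opL (idL c 0 f) (pf7 G f)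
    rw [Fin.sum_univ_two, h1 0, h2 0 1 (by decide), add_zero]
    rfl
  · show _ = ∑ f : Fin 2, opL (idL c 1 f) (pf7 G f)
    rw [Fin.sum_univ_two, h1 1, h2 1 0 (by decide), zero_add]
    rfl

private lemma rw_congr {Φ Ψ : (ℤ → ℤ → ZMod 7) → (ℤ → ℤ → ZMod 7)}
    {A : Fin 2 → Fin 2 → List Tm} (hA : Rw r s Φ A) (h : ∀ G, Φ G = Ψ G) : Rw r s Ψ A := by
  have : Φ = Ψ := funext h
  rwa [this] at hA

private lemma pf_zero (H : ℤ → ℤ → ZMod 7) : (pf7 H 0 : Fn7 (7 ^ r) (7 ^ s)) 0 0 = H 1 0 - H 0 1 := by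
  have hY : rY7 0 (0 : ZMod (7 ^ r)) (0 : ZMod (7 ^ s)) = 0 := by
    unfold rY7
    simp
  unfold pf7 edge7
  rw [hY]
  simp [e7]

end

theorem hStp (hb : S7HkB) (h2 : S7Hk2) (h3 : S7Hk3) (h5 : S7Hk5) (hp : S7Opm) (ha : S7PlA) : S7Stp := by
  intro r s G hG
  have _ := ha
  have r2 : Rw r s (Tl 2 (7 ^ r)) T2L := ⟨gg2, fun G hG =>
    ⟨(hb (ZMod 7) _ r (s + 1) 2 G (by norm_num) (by norm_num) hG).1, h2 r s G hG⟩⟩
  have r3 : Rw r s (Tl 3 (7 ^ r)) T3L := ⟨gg3, fun G hG =>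
    ⟨(hb (ZMod 7) _ r (s + 1) 3 G (by norm_num) (by norm_num) hG).1, h3 r s G hG⟩⟩
  have r5 : Rw r s (Tl 5 (7 ^ r)) T5L := ⟨gg5, fun G hG =>
    ⟨(hb (ZMod 7) _ r (s + 1) 5 G (by norm_num) (by norm_num) hG).1, h5 r s G hG⟩⟩
  have r22 := rw_mm hp r2 r2
  have r33 := rw_mm hp r3 r3
  have r32 := rw_mm hp r3 r2
  have rU : Rw r s (Uo7 (7 ^ r)) UL := by
    refine rw_congr (rw_ad hp r22 (rw_ad hp (rw_sm hp (-4) r2) (rw_id 3))) fun G => ?_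
    unfold Uo7
    rw [neg_smul]
    abel
  have rZ : Rw r s (Zo7 (7 ^ r)) (adL (mmL T2L T2L) (adL T2L (idL 2))) := by
    refine rw_congr (rw_ad hp r22 (rw_ad hp r2 (rw_id 2))) fun G => ?_
    unfold Zo7
    abel
  have rV : Rw r s (Vo7 (7 ^ r)) VL := rw_congr (rw_mm hp r3 rZ) fun G => rfl
  have rE : Rw r s (V8o (7 ^ r)) EL := by
    refine rw_congr (rw_ad hp (rw_mm hp r3 (rw_ad hp (rw_id 3) (rw_ad hp (rw_sm hp 2 r2)
      (rw_ad hp (rw_sm hp (-1) r22) (rw_sm hp (-1) r33))))) (rw_mm hp r5 (rw_ad hp r22 (rw_id 4)))) fun G => ?_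
    unfold V8o
    have e : (3 : ℤ) • G + ((2 : ℤ) • Tl 2 (7 ^ r) G + ((-1 : ℤ) • Tl 2 (7 ^ r) (Tl 2 (7 ^ r) G) +
        (-1 : ℤ) • Tl 3 (7 ^ r) (Tl 3 (7 ^ r) G))) =
        (3 : ℤ) • G + (2 : ℤ) • Tl 2 (7 ^ r) G - Tl 2 (7 ^ r) (Tl 2 (7 ^ r) G) -
          Tl 3 (7 ^ r) (Tl 3 (7 ^ r) G) := by
      rw [neg_one_zsmul, neg_one_zsmul]
      abel
    simp only [e]
  have rO : Rw r s (O5o (7 ^ r)) (adL (mmL T3L T2L) (adL (smL 2 (mmL T2L T2L)) (adL (smL 3 T2L)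
      (adL (smL 2 T3L) (idL 2))))) := by
    refine rw_congr (rw_ad hp r32 (rw_ad hp (rw_sm hp 2 r22) (rw_ad hp (rw_sm hp 3 r2)
      (rw_ad hp (rw_sm hp 2 r3) (rw_id 2))))) fun G => ?_
    unfold O5o
    abel
  exact ⟨rU.2 G hG, rV.2 G hG, rE.2 G hG, (rZ.2 G hG).2 0, (rO.2 G hG).2 0, fun H => pf_zero H⟩

end Pool.Agent.Helper33.S7
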